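import Pool.Agent.Helper87.TB.St

/-! Project TB (MP_e73f90_co), module EX -/

set_option autoImplicit false

namespace Pool.Agent.Helper28.TB

open Pool.Agent.Helper87.TB Finset

theorem aEX : StEX := by
  intro r N hN
  have hN' : (0 : ℝ) < N := by exact_mod_cast hN
  rcases Nat.lt_or_ge N r with h | h
  · have h0 : (∏ j ∈ range r, (1 - (j : ℝ) / N)) = 0 := by
      apply Finset.prod_eq_zero (mem_range.mpr h)
      rw [div_self hN'.ne']
      ring
    rw [h0]
    exact ⟨(Real.exp_pos _).le, le_refl _⟩
  · have hnn : ∀ j ∈ range r, 0 ≤ 1 - (j : ℝ) / N := by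
      intro j hj
      have h1 : (j : ℝ) ≤ N := by
        have := mem_range.mp hj
        exact_mod_cast (by omega : j ≤ N)
      have : (j : ℝ) / N ≤ 1 := by
        rw [div_le_one hN']
        exact h1
      linarith
    refine ⟨?_, Finset.prod_nonneg hnn⟩
    have hsum : ∀ s : ℕ, ∑ j ∈ range s, (-((j : ℝ) / N)) = -((s : ℝ) * (s - 1) / (2 * N)) := by
      intro s
      induction s with
      | zero => simp
      | succ s ih =>
        rw [sum_range_succ, ih]
        push_cast
        field_simp
        ring
    calc (∏ j ∈ range r, (1 - (j : ℝ) / N)) ≤ ∏ j ∈ range r, Real.exp (-((j : ℝ) / N)) := by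
          apply Finset.prod_le_prod hnn
          intro j _
          have := Real.add_one_le_exp (-((j : ℝ) / N))
          linarith
      _ = Real.exp (-((r : ℝ) * (r - 1) / (2 * N))) := by
          rw [← Real.exp_sum, hsum]

end Pool.Agent.Helper28.TB
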